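import Mathlib
import Pool.Agent.helper76.BQ.TDefs
import Pool.Agent.helper76.BQ.BDefs
import Pool.Agent.helper76.BQ.BGood

/-!
Module B5e of project bq (MP_3703a7_ag): the determinant of the denominator, conditional on B2e
(`AA_det`) and B5c (`den_places`).
-/

open Matrix Complex
open scoped Kronecker

namespace Pool.Agent.helper76.BQ

/-- statement of B2e -/
def B5e_hB2e : Prop := ∀ {D : ℝ} (_ : 0 < D) {gm gp : Matrix (Fin 3) (Fin 3) ℂ} (_ : GU D gm gp)
    {z : Fin 2 → ℂ} (_ : z ∈ Ball D) (B : Matrix (Fin 3) (Fin 3) ℂ)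
    (_ : ∀ x, B *ᵥ x = AA D gm gp z x),
    B.det = (gm *ᵥ lift z) 2 ^ 2 * nn D (mob gm z) / nn D z

/-- statement of B5c -/
def B5e_hB5c (F : Type) [Field F] [NumberField F] : Prop :=
  ∀ {κ d : F} {v0 : F →+* ℝ} (_ : Data κ d v0) {k g : ℕ} {δ : Fin k → F}
    {bas dua : Fin g → Fin k → Fin 3 → F} (_ : LB d δ bas dua)
    {S M : (F →+* ℝ) → Matrix (Fin k) (Fin k) ℝ} (_ : MajAll δ v0 S M) {z : Fin 2 → ℂ}
    (_ : z ∈ Ball (v0 d))
    {A C : Matrix (Fin 3) (Fin 3) F} {MM : Matrix (Fin g ⊕ Fin g) (Fin g ⊕ Fin g) ℤ}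
    (_ : Rep κ bas dua A C MM) (c : Fin g → ℂ),
    (∀ l : Fin k, ∑ i, (den MM (Zm κ d v0 bas M z) *ᵥ c) i • pl v0 (bas i l) =
      AA (v0 d) (evm κ v0 A C) (evp κ v0 A C) z (∑ i, c i • pl v0 (bas i l))) ∧
    (∀ v : F →+* ℝ, v ≠ v0 → ∀ l : Fin k, ∑ i, (den MM (Zm κ d v0 bas M z) *ᵥ c) i • pl v (bas i l) =
      A.map (fun x => ((v x : ℝ) : ℂ)) *ᵥ (∑ i, c i • pl v (bas i l)) +
      (I * ((Real.sqrt (v κ) : ℝ) : ℂ)) • (C.map (fun x => ((v x : ℝ) : ℂ)) *ᵥ
        (∑ l', (((v (δ l))⁻¹ * M v l l' : ℝ) : ℂ) • ∑ i, c i • pl v (bas i l'))))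

/-- the matrix of `AA` -/
noncomputable def B5e_AM (D : ℝ) (gm gp : Matrix (Fin 3) (Fin 3) ℂ) (z : Fin 2 → ℂ) :
    Matrix (Fin 3) (Fin 3) ℂ :=
  gp * (1 - Matrix.vecMulVec (lift z) (fun a => (![1, 1, -(D : ℂ)] : Fin 3 → ℂ) a * lift z a /
    bil D (lift z) (lift z))) +
  gm * Matrix.vecMulVec (lift z) (fun a => (![1, 1, -(D : ℂ)] : Fin 3 → ℂ) a * lift z a /
    bil D (lift z) (lift z))

theorem B5e_PZ (D : ℝ) (z : Fin 2 → ℂ) (x : Fin 3 → ℂ) :
    Matrix.vecMulVec (lift z) (fun a => (![1, 1, -(D : ℂ)] : Fin 3 → ℂ) a * lift z a /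
      bil D (lift z) (lift z)) *ᵥ x = PZ D z x := by
  ext a
  simp only [Matrix.mulVec, dotProduct, Matrix.vecMulVec_apply, PZ, Pi.smul_apply, smul_eq_mul,
    Fin.sum_univ_three]
  rw [show bil (D : ℂ) x (lift z) = x 0 * lift z 0 + x 1 * lift z 1 - D * x 2 * lift z 2 from rfl]
  simp only [Matrix.cons_val_zero, Matrix.cons_val_one, Matrix.cons_val]
  ring

theorem B5e_AM_mulVec (D : ℝ) (gm gp : Matrix (Fin 3) (Fin 3) ℂ) (z : Fin 2 → ℂ)
    (x : Fin 3 → ℂ) : B5e_AM D gm gp z *ᵥ x = AA D gm gp z x := by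
  rw [B5e_AM, Matrix.add_mulVec, ← Matrix.mulVec_mulVec, ← Matrix.mulVec_mulVec,
    Matrix.sub_mulVec, Matrix.one_mulVec, B5e_PZ]
  rfl

section
variable {F : Type} [Field F] [NumberField F]

theorem B5e_evp_conj (κ : F) (v : F →+* ℝ) (A C : Matrix (Fin 3) (Fin 3) F) :
    evp κ v A C = (evm κ v A C).map (starRingEnd ℂ) := by
  ext i j
  simp only [evp, evm, Matrix.add_apply, Matrix.map_apply, Matrix.sub_apply, Matrix.smul_apply,
    smul_eq_mul, map_sub, map_mul, conj_ofReal, conj_I]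
  ring

theorem B5e_evp_det {κ d : F} {A C : Matrix (Fin 3) (Fin 3) F} (h : IsSU κ d A C)
    (v : F →+* ℝ) : (evp κ v A C).det = 1 := by
  rw [B5e_evp_conj]
  have := (RingHom.map_det (starRingEnd ℂ) (evm κ v A C)).symm
  rw [h.2 v, map_one] at this
  exact this

theorem B5e_GU {κ d : F} {A C : Matrix (Fin 3) (Fin 3) F} (h : IsSU κ d A C) (v : F →+* ℝ)
    (hk : 0 < v κ) : GU (v d) (evm κ v A C) (evp κ v A C) := by
  refine ⟨B5e_evp_conj κ v A C, ?_, h.2 v⟩
  set φ : F →+* ℂ := (Complex.ofRealHom).comp v with hφ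
  have hAm : A.map (fun x => ((v x : ℝ) : ℂ)) = A.map φ := rfl
  have hCm : C.map (fun x => ((v x : ℝ) : ℂ)) = C.map φ := rfl
  set s : ℂ := I * ((Real.sqrt (v κ) : ℝ) : ℂ) with hs
  have hs2 : s * s = -φ κ := by
    rw [hs]
    have h1 : ((Real.sqrt (v κ) : ℝ) : ℂ) * ((Real.sqrt (v κ) : ℝ) : ℂ) = φ κ := by
      rw [← ofReal_mul, Real.mul_self_sqrt hk.le]; rfl
    calc I * ((Real.sqrt (v κ) : ℝ) : ℂ) * (I * ((Real.sqrt (v κ) : ℝ) : ℂ)) =
        (I * I) * (((Real.sqrt (v κ) : ℝ) : ℂ) * ((Real.sqrt (v κ) : ℝ) : ℂ)) := by ring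
      _ = -φ κ := by rw [I_mul_I, h1]; ring
  have hcj : (evm κ v A C)ᴴ = (Aᵀ).map φ + s • (Cᵀ).map φ := by
    ext i j
    simp only [evm, Matrix.conjTranspose_apply, Matrix.sub_apply, Matrix.map_apply,
      Matrix.smul_apply, smul_eq_mul, Matrix.add_apply, Matrix.transpose_apply, hs, star_sub,
      star_mul', RCLike.star_def, conj_ofReal, conj_I]
    change (φ (A j i)) - (-I * ((Real.sqrt (v κ) : ℝ) : ℂ) * φ (C j i)) = _
    ring
  have hev : evm κ v A C = A.map φ - s • C.map φ := rfl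
  have hH : HH ((v d : ℝ) : ℂ) = (HH d).map φ := by
    ext i j
    simp only [HH, Matrix.diagonal_apply, Matrix.map_apply]
    fin_cases i <;> fin_cases j <;> simp [hφ]
  obtain ⟨⟨h1, h2⟩, -⟩ := h
  have k1 : (Aᵀ).map φ * (HH d).map φ * A.map φ + (φ κ) • ((Cᵀ).map φ * (HH d).map φ * C.map φ) =
      (HH d).map φ := by
    have := congrArg (fun X : Matrix (Fin 3) (Fin 3) F => X.map φ) h1
    rw [Matrix.map_add φ (map_add φ), Matrix.map_mul, Matrix.map_mul] at this
    have e0 : (κ • (Cᵀ * HH d * C)).map φ = φ κ • ((Cᵀ).map φ * (HH d).map φ * C.map φ) := by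
      rw [← Matrix.map_mul, ← Matrix.map_mul]
      ext i j
      exact map_mul φ _ _
    rw [e0] at this
    exact this
  have k2 : (Aᵀ).map φ * (HH d).map φ * C.map φ = (Cᵀ).map φ * (HH d).map φ * A.map φ := by
    have := congrArg (fun X : Matrix (Fin 3) (Fin 3) F => X.map φ) h2
    rw [Matrix.map_mul, Matrix.map_mul, Matrix.map_mul, Matrix.map_mul] at this
    exact this
  rw [hcj, hev, hH]
  have e : ((Aᵀ).map φ + s • (Cᵀ).map φ) * (HH d).map φ * (A.map φ - s • C.map φ) =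
      ((Aᵀ).map φ * (HH d).map φ * A.map φ - (s * s) • ((Cᵀ).map φ * (HH d).map φ * C.map φ)) +
      s • ((Cᵀ).map φ * (HH d).map φ * A.map φ - (Aᵀ).map φ * (HH d).map φ * C.map φ) := by
    rw [Matrix.add_mul, Matrix.add_mul, Matrix.mul_sub, Matrix.mul_sub]
    simp only [Matrix.smul_mul, Matrix.mul_smul, smul_smul, smul_sub]
    abel
  rw [e, hs2, k2, sub_self, smul_zero, add_zero, neg_smul, sub_neg_eq_add, k1]

end

/-- a block with a real symmetric involution -/
theorem B5e_block {k : ℕ} (A C : Matrix (Fin 3) (Fin 3) ℂ) (T S Si : Matrix (Fin k) (Fin k) ℂ)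
    (s : Fin k → ℂ) (h1 : S * Si = 1) (h2 : Si * S = 1) (hT : T = Si * diagonal s * S)
    (hs : ∀ l, s l = 1 ∨ s l = -1) (hp : (A + C).det = 1) (hm : (A - C).det = 1) :
    (A ⊗ₖ (1 : Matrix (Fin k) (Fin k) ℂ) + C ⊗ₖ T).det = 1 := by
  have e1 : ((1 : Matrix (Fin 3) (Fin 3) ℂ) ⊗ₖ S) * ((1 : Matrix (Fin 3) (Fin 3) ℂ) ⊗ₖ Si) = 1 := by
    rw [← Matrix.mul_kronecker_mul, h1, one_mul, Matrix.one_kronecker_one]
  have e2 : ((1 : Matrix (Fin 3) (Fin 3) ℂ) ⊗ₖ Si) * ((1 : Matrix (Fin 3) (Fin 3) ℂ) ⊗ₖ S) = 1 := by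
    rw [← Matrix.mul_kronecker_mul, h2, one_mul, Matrix.one_kronecker_one]
  rw [← Matrix.det_conj_of_mul_eq_one e1 e2]
  have e3 : ((1 : Matrix (Fin 3) (Fin 3) ℂ) ⊗ₖ S) * (A ⊗ₖ (1 : Matrix (Fin k) (Fin k) ℂ) + C ⊗ₖ T) *
      ((1 : Matrix (Fin 3) (Fin 3) ℂ) ⊗ₖ Si) = Matrix.blockDiagonal (fun l => A + s l • C) := by
    rw [Matrix.mul_add, Matrix.add_mul, ← Matrix.mul_kronecker_mul, ← Matrix.mul_kronecker_mul,
      ← Matrix.mul_kronecker_mul, ← Matrix.mul_kronecker_mul, one_mul, one_mul, mul_one, mul_one,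
      mul_one, h1]
    have e4 : S * T * Si = diagonal s := by
      rw [hT]
      calc S * (Si * diagonal s * S) * Si = (S * Si) * diagonal s * (S * Si) := by
            simp only [Matrix.mul_assoc]
        _ = diagonal s := by rw [h1, one_mul, mul_one]
    rw [e4]
    ext ⟨a, l⟩ ⟨a', l'⟩
    rw [Matrix.blockDiagonal_apply]
    simp only [Matrix.add_apply, Matrix.kroneckerMap_apply, Matrix.one_apply,
      Matrix.diagonal_apply, Matrix.smul_apply, smul_eq_mul]
    split_ifs with h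
    · ring
    · ring
  rw [e3, Matrix.det_blockDiagonal]
  refine Finset.prod_eq_one fun l _ => ?_
  rcases hs l with h | h
  · rw [h, one_smul, hp]
  · rw [h, neg_smul, one_smul, ← sub_eq_add_neg, hm]

variable {F : Type} [Field F] [NumberField F]

theorem det_den_Zm_of (hB2e : B5e_hB2e) (hB5c : B5e_hB5c F)
    {κ d : F} {v0 : F →+* ℝ} (hd : Data κ d v0) {k g : ℕ} {δ : Fin k → F}
    {bas dua : Fin g → Fin k → Fin 3 → F} (hL : LB d δ bas dua)
    {S M : (F →+* ℝ) → Matrix (Fin k) (Fin k) ℝ} (hM : MajAll δ v0 S M) {z : Fin 2 → ℂ} (hz : z ∈ Ball (v0 d))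
    {A C : Matrix (Fin 3) (Fin 3) F} (hA : IsSU κ d A C) {MM : Matrix (Fin g ⊕ Fin g) (Fin g ⊕ Fin g) ℤ}
    (hR : Rep κ bas dua A C MM) :
    (den MM (Zm κ d v0 bas M z)).det =
      ((evm κ v0 A C *ᵥ lift z) 2 ^ 2 * nn (v0 d) (mob (evm κ v0 A C) z) / nn (v0 d) z) ^ k := by
  classical
  have hB := hB2e hd.dpos (B5e_GU hA v0 (hd.kpos v0)) hz
    (B5e_AM (v0 d) (evm κ v0 A C) (evp κ v0 A C) z) (B5e_AM_mulVec _ _ _ _)
  rw [← hB]
  set B := B5e_AM (v0 d) (evm κ v0 A C) (evp κ v0 A C) z with hBdef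
  have hBx : ∀ x, B *ᵥ x = AA (v0 d) (evm κ v0 A C) (evp κ v0 A C) z x := B5e_AM_mulVec _ _ _ _
  -- the change of coordinates
  let P : Matrix ((Fin 3 × Fin k) × (F →+* ℝ)) (Fin g) ℂ := fun n i =>
    ((n.2 (bas i n.1.2 n.1.1) : ℝ) : ℂ)
  let P' : Matrix (Fin g) ((Fin 3 × Fin k) × (F →+* ℝ)) ℂ := fun i n =>
    ((n.2 (dua i n.1.2 n.1.1) * (n.2 (δ n.1.2) * (![1, 1, -(n.2 d)] : Fin 3 → ℝ) n.1.1) : ℝ) : ℂ)
  have hvd : ∀ v : F →+* ℝ, v d ≠ 0 := by
    intro v
    by_cases h : v = v0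
    · rw [h]; exact hd.dpos.ne'
    · exact (hd.dneg v h).ne
  have hvδ : ∀ (v : F →+* ℝ) l, v (δ l) ≠ 0 := fun v l => by
    rw [Ne, map_eq_zero]; exact hM.ne l
  have hPP' : P * P' = 1 := by
    ext ⟨⟨a', l'⟩, w⟩ ⟨⟨a, l⟩, v⟩
    rw [Matrix.mul_apply]
    have e : ∑ i, P ((a', l'), w) i * P' i ((a, l), v) =
        (((∑ i, v (dua i l a) * w (bas i l' a')) *
          (v (δ l) * (![1, 1, -(v d)] : Fin 3 → ℝ) a) : ℝ) : ℂ) := by
      rw [Finset.sum_mul]
      push_cast
      refine Finset.sum_congr rfl fun i _ => ?_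
      simp only [P, P']
      push_cast
      ring
    rw [e, Matrix.one_apply]
    have hpl := hL.places v w l l' a a'
    split_ifs with h
    · simp only [Prod.mk.injEq] at h
      obtain ⟨⟨rfl, rfl⟩, rfl⟩ := h
      rw [hpl.1 ⟨rfl, rfl, rfl⟩]
      have h3 : (![1, 1, -(w d)] : Fin 3 → ℝ) a' ≠ 0 := by
        fin_cases a'
        · simp
        · simp
        · simpa using hvd w
      have h4 : w (δ l') * (![1, 1, -(w d)] : Fin 3 → ℝ) a' ≠ 0 := mul_ne_zero (hvδ w l') h3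
      rw [one_div, inv_mul_cancel₀ h4, ofReal_one]
    · have : ¬ (v = w ∧ l = l' ∧ a = a') := by
        rintro ⟨rfl, rfl, rfl⟩
        exact h rfl
      rw [hpl.2 this, zero_mul, ofReal_zero]
  have hinj : ∀ c : Fin g → ℂ, P *ᵥ c = 0 → c = 0 := by
    intro c hc
    have hc' : ∀ (v : F →+* ℝ) l a, ∑ i, ((v (bas i l a) : ℝ) : ℂ) * c i = 0 := by
      intro v l a
      have := congrFun hc ((a, l), v)
      simpa [Matrix.mulVec, dotProduct, P] using this
    have h1 : (fun i => (c i).re) = 0 := by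
      refine hL.inj _ fun v l a => ?_
      have := congrArg Complex.re (hc' v l a)
      rw [Complex.re_sum, Complex.zero_re] at this
      rw [← this]
      refine Finset.sum_congr rfl fun i _ => ?_
      rw [Complex.re_ofReal_mul, mul_comm]
    have h2 : (fun i => (c i).im) = 0 := by
      refine hL.inj _ fun v l a => ?_
      have := congrArg Complex.im (hc' v l a)
      rw [Complex.im_sum, Complex.zero_im] at this
      rw [← this]
      refine Finset.sum_congr rfl fun i _ => ?_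
      rw [Complex.im_ofReal_mul, mul_comm]
    ext i
    exact Complex.ext (congrFun h1 i) (congrFun h2 i)
  have hP'P : P' * P = 1 := by
    have h1 : P * (P' * P - 1) = 0 := by
      rw [Matrix.mul_sub, ← Matrix.mul_assoc, hPP', Matrix.one_mul, Matrix.mul_one, sub_self]
    have h2 : P' * P - 1 = 0 := by
      ext i j
      have h3 := hinj (fun i => (P' * P - 1 : Matrix (Fin g) (Fin g) ℂ) i j) (by
        ext n
        have := congrFun (congrFun h1 n) j
        rw [Matrix.mul_apply] at this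
        exact this)
      exact congrFun h3 i
    exact sub_eq_zero.1 h2
  -- the block matrix
  let Am : (F →+* ℝ) → Matrix (Fin 3) (Fin 3) ℂ := fun v => A.map (fun x => ((v x : ℝ) : ℂ))
  let Cm : (F →+* ℝ) → Matrix (Fin 3) (Fin 3) ℂ := fun v =>
    (I * ((Real.sqrt (v κ) : ℝ) : ℂ)) • C.map (fun x => ((v x : ℝ) : ℂ))
  let T : (F →+* ℝ) → Matrix (Fin k) (Fin k) ℂ := fun v l l' => (((v (δ l))⁻¹ * M v l l' : ℝ) : ℂ)
  let Bl : (F →+* ℝ) → Matrix (Fin 3 × Fin k) (Fin 3 × Fin k) ℂ := fun v =>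
    if v = v0 then B ⊗ₖ (1 : Matrix (Fin k) (Fin k) ℂ) else
      Am v ⊗ₖ (1 : Matrix (Fin k) (Fin k) ℂ) + Cm v ⊗ₖ T v
  have hkey : P * den MM (Zm κ d v0 bas M z) = Matrix.blockDiagonal Bl * P := by
    have hall : ∀ c : Fin g → ℂ, (P * den MM (Zm κ d v0 bas M z)) *ᵥ c =
        (Matrix.blockDiagonal Bl * P) *ᵥ c := by
      intro c
      rw [← Matrix.mulVec_mulVec, ← Matrix.mulVec_mulVec]
      set y : (Fin 3 × Fin k) × (F →+* ℝ) → ℂ := P *ᵥ c with hy
      have hyv : ∀ (v : F →+* ℝ) l a, (∑ i, c i • pl v (bas i l)) a = y ((a, l), v) := by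
        intro v l a
        rw [hy, Finset.sum_apply]
        simp only [Matrix.mulVec, dotProduct, P, Pi.smul_apply, smul_eq_mul, pl]
        refine Finset.sum_congr rfl fun i _ => ?_
        ring
      obtain ⟨hv0, hv⟩ := hB5c hd hL hM hz hR c
      ext ⟨⟨a, l⟩, v⟩
      have hl : (P *ᵥ (den MM (Zm κ d v0 bas M z) *ᵥ c)) ((a, l), v) =
          (∑ i, (den MM (Zm κ d v0 bas M z) *ᵥ c) i • pl v (bas i l)) a := by
        rw [Finset.sum_apply]
        simp only [Matrix.mulVec, dotProduct, P, Pi.smul_apply, smul_eq_mul, pl]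
        refine Finset.sum_congr rfl fun i _ => ?_
        ring
      have hr : (Matrix.blockDiagonal Bl *ᵥ y) ((a, l), v) =
          ∑ a' : Fin 3, ∑ l' : Fin k, Bl v (a, l) (a', l') * y ((a', l'), v) := by
        simp only [Matrix.mulVec, dotProduct, Fintype.sum_prod_type, Matrix.blockDiagonal_apply]
        refine Finset.sum_congr rfl fun a' _ => ?_
        refine Finset.sum_congr rfl fun l' _ => ?_
        simp only [ite_mul, zero_mul]
        rw [Finset.sum_ite_eq]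
        simp
      rw [hl, hr]
      by_cases h : v = v0
      · subst h
        rw [hv0 l, ← hBx]
        simp only [Bl, if_true, Matrix.kroneckerMap_apply, Matrix.one_apply, mul_ite, mul_one,
          mul_zero, ite_mul, zero_mul]
        simp only [Finset.sum_ite_eq, Finset.mem_univ, if_true]
        simp only [Matrix.mulVec, dotProduct]
        refine Finset.sum_congr rfl fun a' _ => ?_
        rw [hyv]
      · rw [hv v h l]
        simp only [Bl, if_neg h, Matrix.add_apply, Matrix.kroneckerMap_apply, add_mul,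
          Finset.sum_add_distrib]
        rw [Pi.add_apply, Pi.smul_apply]
        congr 1
        · simp only [Matrix.one_apply, mul_ite, mul_one, mul_zero, ite_mul, zero_mul]
          simp only [Finset.sum_ite_eq, Finset.mem_univ, if_true]
          simp only [Matrix.mulVec, dotProduct]
          refine Finset.sum_congr rfl fun a' _ => ?_
          rw [hyv]
        · simp only [Matrix.mulVec, dotProduct, smul_eq_mul, Finset.mul_sum]
          refine Finset.sum_congr rfl fun a' _ => ?_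
          rw [Finset.sum_apply, Finset.mul_sum, Finset.mul_sum]
          refine Finset.sum_congr rfl fun l' _ => ?_
          rw [Pi.smul_apply, hyv, smul_eq_mul]
          simp only [Cm, T, Matrix.smul_apply, smul_eq_mul]
          ring
    ext n j
    have := congrFun (hall (Pi.single j 1)) n
    rw [Matrix.mulVec_single_one, Matrix.mulVec_single_one] at this
    exact this
  rw [← Matrix.det_conj_of_mul_eq_one hPP' hP'P, hkey, Matrix.mul_assoc, hPP', Matrix.mul_one,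
    Matrix.det_blockDiagonal, Finset.prod_eq_single v0]
  · simp only [Bl, if_true]
    rw [Matrix.det_kronecker, Matrix.det_one, one_pow, mul_one, Fintype.card_fin]
  · intro v _ hv
    simp only [Bl, if_neg hv]
    obtain ⟨hm1, hm2⟩ := hM.maj v
    -- complexify
    let q : Fin k → ℝ := fun l => v (δ l)
    have hq : ∀ l, q l ≠ 0 := hvδ v
    have hSi : (diagonal (fun l => (q l)⁻¹) * (S v)ᵀ * diagonal q) * S v = 1 := by
      have : diagonal (fun l => (q l)⁻¹) * ((S v)ᵀ * diagonal q * S v) = 1 := by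
        rw [hm1, Matrix.diagonal_mul_diagonal]
        rw [← Matrix.diagonal_one]
        congr 1
        ext l
        exact inv_mul_cancel₀ (hq l)
      rw [← this]
      simp only [Matrix.mul_assoc]
    have hTr : (fun l l' => (q l)⁻¹ * M v l l' : Matrix (Fin k) (Fin k) ℝ) =
        (diagonal (fun l => (q l)⁻¹) * (S v)ᵀ * diagonal q) * diagonal (fun l => (q l)⁻¹ * |q l|) *
          S v := by
      have e1 : (fun l l' => (q l)⁻¹ * M v l l' : Matrix (Fin k) (Fin k) ℝ) =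
          diagonal (fun l => (q l)⁻¹) * M v := by
        ext l l'
        rw [Matrix.diagonal_mul]
      rw [e1, hm2]
      have e2 : diagonal (fun l => |q l|) = diagonal q * diagonal (fun l => (q l)⁻¹ * |q l|) := by
        rw [Matrix.diagonal_mul_diagonal]
        congr 1
        ext l
        rw [← mul_assoc, mul_inv_cancel₀ (hq l), one_mul]
      change diagonal (fun l => (q l)⁻¹) * ((S v)ᵀ * diagonal (fun l => |q l|) * S v) = _
      rw [e2]
      simp only [Matrix.mul_assoc]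
    have hSi2 := mul_eq_one_comm.1 hSi
    set Si := diagonal (fun l => (q l)⁻¹) * (S v)ᵀ * diagonal q with hSidef
    refine B5e_block (Am v) (Cm v) (T v) ((S v).map Complex.ofRealHom) (Si.map Complex.ofRealHom)
      (fun l => (((q l)⁻¹ * |q l| : ℝ) : ℂ)) ?_ ?_ ?_ ?_ ?_ ?_
    · rw [← Matrix.map_mul, hSi2]; exact Matrix.map_one _ (map_zero _) (map_one _)
    · rw [← Matrix.map_mul, hSi]; exact Matrix.map_one _ (map_zero _) (map_one _)
    · have e3 : T v = Matrix.map (fun l l' => (q l)⁻¹ * M v l l' : Matrix (Fin k) (Fin k) ℝ)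
          Complex.ofRealHom := rfl
      rw [e3, hTr, Matrix.map_mul, Matrix.map_mul]
      congr 2
      rw [Matrix.diagonal_map (map_zero _)]
      rfl
    · intro l
      rcases lt_or_gt_of_ne (hq l) with h | h
      · right
        rw [abs_of_neg h, mul_neg, inv_mul_cancel₀ (hq l)]
        simp
      · left
        rw [abs_of_pos h, inv_mul_cancel₀ (hq l)]
        simp
    · exact B5e_evp_det hA v
    · exact hA.2 v
  · intro h
    exact absurd (Finset.mem_univ _) h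

end Pool.Agent.helper76.BQ
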