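import Mathlib
import Pool.Agent.helper79.BQ.B5e
import Pool.Agent.helper72.BQ.B2e
import Pool.Agent.helper52.BQ.B5c

/-!
Module B5e of project bq, final form.
-/

open Matrix Complex

namespace Pool.Agent.helper76.BQ

variable {F : Type} [Field F] [NumberField F]

theorem det_den_Zm {κ d : F} {v0 : F →+* ℝ} (hd : Data κ d v0) {k g : ℕ} {δ : Fin k → F}
    {bas dua : Fin g → Fin k → Fin 3 → F} (hL : LB d δ bas dua)
    {S M : (F →+* ℝ) → Matrix (Fin k) (Fin k) ℝ} (hM : MajAll δ v0 S M) {z : Fin 2 → ℂ} (hz : z ∈ Ball (v0 d))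
    {A C : Matrix (Fin 3) (Fin 3) F} (hA : IsSU κ d A C) {MM : Matrix (Fin g ⊕ Fin g) (Fin g ⊕ Fin g) ℤ}
    (hR : Rep κ bas dua A C MM) :
    (den MM (Zm κ d v0 bas M z)).det =
      ((evm κ v0 A C *ᵥ lift z) 2 ^ 2 * nn (v0 d) (mob (evm κ v0 A C) z) / nn (v0 d) z) ^ k :=
  det_den_Zm_of (fun hD _ _ h _ hz B hB => AA_det hD h hz B hB)
    (fun hd _ _ _ _ _ hL _ _ hM _ hz _ _ _ hR c => den_places hd hL hM hz hR c) hd hL hM hz hA hR

end Pool.Agent.helper76.BQ
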