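import Pool.Agent.helper76.BQ.TDefs

/-!
# T6a, T6b: Heisenberg operators modulo `2 N ^ 2`, and their commutant
-/

open Matrix Complex

namespace Pool.Agent.helper76.BQ

/-- T6a -/
theorem Wop_congr {g N : ℕ} (hN : 0 < N) (h h' : (Fin g ⊕ Fin g) → ℤ)
    (hh : ∀ i, (2 * N ^ 2 : ℤ) ∣ h i - h' i) : Wop (g := g) N h = Wop N h' := by
  have hN0 : (N : ℂ) ≠ 0 := Nat.cast_ne_zero.2 hN.ne'
  choose m hm using hh
  have hc : ∀ i, (h i : ℂ) = (h' i : ℂ) + 2 * (N : ℂ) ^ 2 * (m i : ℂ) := by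
    intro i
    have h0 : h i = h' i + 2 * (N : ℤ) ^ 2 * m i := by linarith [hm i]
    rw [h0]
    push_cast
    ring
  refine LinearMap.ext fun φ => funext fun n => ?_
  show cexp (2 * (Real.pi : ℂ) * I *
      (-(∑ i, (h (Sum.inr i) : ℂ) * ((n i).val : ℂ)) / (N : ℂ) ^ 2
        - (∑ i, (h (Sum.inl i) : ℂ) * (h (Sum.inr i) : ℂ)) / (2 * (N : ℂ) ^ 2))) *
      φ (fun i => n i + ((h (Sum.inl i) : ℤ) : ZMod (N ^ 2))) =
    cexp (2 * (Real.pi : ℂ) * I *
      (-(∑ i, (h' (Sum.inr i) : ℂ) * ((n i).val : ℂ)) / (N : ℂ) ^ 2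
        - (∑ i, (h' (Sum.inl i) : ℂ) * (h' (Sum.inr i) : ℂ)) / (2 * (N : ℂ) ^ 2))) *
      φ (fun i => n i + ((h' (Sum.inl i) : ℤ) : ZMod (N ^ 2)))
  have h1 : (fun i => n i + ((h (Sum.inl i) : ℤ) : ZMod (N ^ 2))) =
      fun i => n i + ((h' (Sum.inl i) : ℤ) : ZMod (N ^ 2)) := by
    funext i
    congr 1
    rw [ZMod.intCast_eq_intCast_iff_dvd_sub]
    refine ⟨-(2 * m (Sum.inl i)), ?_⟩
    push_cast
    linarith [hm (Sum.inl i)]
  have hA : (∑ i, (h (Sum.inr i) : ℂ) * ((n i).val : ℂ)) =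
      (∑ i, (h' (Sum.inr i) : ℂ) * ((n i).val : ℂ)) +
        2 * (N : ℂ) ^ 2 * ∑ i, (m (Sum.inr i) : ℂ) * ((n i).val : ℂ) := by
    rw [Finset.mul_sum, ← Finset.sum_add_distrib]
    refine Finset.sum_congr rfl fun i _ => ?_
    rw [hc]
    ring
  have hB : (∑ i, (h (Sum.inl i) : ℂ) * (h (Sum.inr i) : ℂ)) =
      (∑ i, (h' (Sum.inl i) : ℂ) * (h' (Sum.inr i) : ℂ)) +
        2 * (N : ℂ) ^ 2 * ∑ i, ((m (Sum.inl i) : ℂ) * (h (Sum.inr i) : ℂ) +
          (h' (Sum.inl i) : ℂ) * (m (Sum.inr i) : ℂ)) := by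
    rw [Finset.mul_sum, ← Finset.sum_add_distrib]
    refine Finset.sum_congr rfl fun i _ => ?_
    rw [hc (Sum.inl i), hc (Sum.inr i)]
    ring
  rw [h1]
  congr 1
  rw [Complex.exp_eq_exp_iff_exists_int]
  refine ⟨-(2 * ∑ i, m (Sum.inr i) * ((n i).val : ℤ)) -
    ∑ i, (m (Sum.inl i) * h (Sum.inr i) + h' (Sum.inl i) * m (Sum.inr i)), ?_⟩
  rw [hA, hB]
  push_cast
  field_simp
  ring

theorem comm_scalar_exp {N : ℕ} (a b : ℕ) (ha : a < N ^ 2) (hb : b < N ^ 2)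
    (h : cexp (2 * (Real.pi : ℂ) * I * (-(a : ℂ) / (N : ℂ) ^ 2)) =
      cexp (2 * (Real.pi : ℂ) * I * (-(b : ℂ) / (N : ℂ) ^ 2))) : a = b := by
  have hN0 : (N : ℂ) ≠ 0 := by
    rintro h0
    have : N = 0 := by exact_mod_cast h0
    subst this
    simp at ha
  rw [Complex.exp_eq_exp_iff_exists_int] at h
  obtain ⟨k, hk⟩ := h
  have hpi : (2 * (Real.pi : ℂ) * I) ≠ 0 := Complex.two_pi_I_ne_zero
  have h1 : (b : ℂ) = (a : ℂ) + (N : ℂ) ^ 2 * k := by
    have h2 : (2 * (Real.pi : ℂ) * I) * (-(a : ℂ) / (N : ℂ) ^ 2) =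
        (2 * (Real.pi : ℂ) * I) * (-(b : ℂ) / (N : ℂ) ^ 2 + k) := by
      rw [hk]; ring
    have h3 := mul_left_cancel₀ hpi h2
    field_simp at h3
    linear_combination h3
  have h4 : (b : ℤ) = (a : ℤ) + (N : ℤ) ^ 2 * k := by exact_mod_cast h1
  have ha' : (a : ℤ) < (N : ℤ) ^ 2 := by exact_mod_cast ha
  have hb' : (b : ℤ) < (N : ℤ) ^ 2 := by exact_mod_cast hb
  have hk0 : k = 0 := by
    by_contra hne
    rcases lt_or_gt_of_ne hne with hlt | hgt
    · have : k ≤ -1 := by omega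
      nlinarith [sq_nonneg (N : ℤ)]
    · have : 1 ≤ k := by omega
      nlinarith [sq_nonneg (N : ℤ)]
  subst hk0
  have : (b : ℤ) = a := by linarith
  exact_mod_cast this.symm

/-- T6b -/
theorem comm_scalar {g N : ℕ} (hN : 0 < N) (ρ : Sch g N →ₗ[ℂ] Sch g N)
    (h : ∀ h : (Fin g ⊕ Fin g) → ℤ, ρ ∘ₗ Wop N h = Wop N h ∘ₗ ρ) : ∃ c : ℂ, ρ = c • LinearMap.id := by
  classical
  have hNN : 0 < N ^ 2 := by positivity
  have : NeZero (N ^ 2) := ⟨hNN.ne'⟩
  -- the diagonal operators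
  have hdiag : ∀ (m : Fin g → ZMod (N ^ 2)) (n : Fin g → ZMod (N ^ 2)), n ≠ m →
      ρ (Pi.single m 1) n = 0 := by
    intro m n hnm
    obtain ⟨i, hi⟩ := Function.ne_iff.1 hnm
    set q : (Fin g ⊕ Fin g) → ℤ := Sum.elim (fun _ => 0) (Pi.single i 1) with hq
    have hW : ∀ (φ : Sch g N) (n : Fin g → ZMod (N ^ 2)), Wop N q φ n =
        cexp (2 * (Real.pi : ℂ) * I * (-((n i).val : ℂ) / (N : ℂ) ^ 2)) * φ n := by
      intro φ n
      show cexp (2 * (Real.pi : ℂ) * I *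
        (-(∑ i, (q (Sum.inr i) : ℂ) * ((n i).val : ℂ)) / (N : ℂ) ^ 2
          - (∑ i, (q (Sum.inl i) : ℂ) * (q (Sum.inr i) : ℂ)) / (2 * (N : ℂ) ^ 2))) *
        φ (fun i => n i + ((q (Sum.inl i) : ℤ) : ZMod (N ^ 2))) = _
      have h1 : (∑ j, (q (Sum.inr j) : ℂ) * ((n j).val : ℂ)) = ((n i).val : ℂ) := by
        rw [Finset.sum_eq_single i]
        · simp [hq]
        · intro j _ hj
          simp [hq, Pi.single_eq_of_ne hj]
        · intro hh
          exact absurd (Finset.mem_univ i) hh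
      have h2 : (∑ j, (q (Sum.inl j) : ℂ) * (q (Sum.inr j) : ℂ)) = 0 := by
        refine Finset.sum_eq_zero fun j _ => ?_
        simp [hq]
      have h3 : (fun j => n j + ((q (Sum.inl j) : ℤ) : ZMod (N ^ 2))) = n := by
        funext j
        simp [hq]
      rw [h1, h2, h3]
      simp
    have hWs : Wop N q (Pi.single m (1 : ℂ)) =
        cexp (2 * (Real.pi : ℂ) * I * (-((m i).val : ℂ) / (N : ℂ) ^ 2)) • (Pi.single m (1 : ℂ) : Sch g N) := by
      funext n'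
      rw [hW, Pi.smul_apply, smul_eq_mul]
      by_cases hn : n' = m
      · rw [hn]
      · rw [Pi.single_eq_of_ne hn]
        simp
    have hcomm := congrFun (congrArg (fun L : Sch g N →ₗ[ℂ] Sch g N => L (Pi.single m 1)) (h q)) n
    simp only [LinearMap.comp_apply] at hcomm
    rw [hWs, map_smul, hW, Pi.smul_apply, smul_eq_mul] at hcomm
    by_contra hne
    have he := mul_right_cancel₀ hne hcomm
    have hv := comm_scalar_exp _ _ (ZMod.val_lt _) (ZMod.val_lt _) he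
    exact hi (ZMod.val_injective _ hv.symm)
  -- the translations
  have hshift : ∀ (m : Fin g → ZMod (N ^ 2)), ρ (Pi.single m 1) m = ρ (Pi.single 0 1) 0 := by
    intro m
    set p : (Fin g ⊕ Fin g) → ℤ := Sum.elim (fun i => ((m i).val : ℤ)) (fun _ => 0) with hp
    have hW : ∀ (φ : Sch g N) (n : Fin g → ZMod (N ^ 2)), Wop N p φ n = φ (n + m) := by
      intro φ n
      show cexp (2 * (Real.pi : ℂ) * I *
        (-(∑ i, (p (Sum.inr i) : ℂ) * ((n i).val : ℂ)) / (N : ℂ) ^ 2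
          - (∑ i, (p (Sum.inl i) : ℂ) * (p (Sum.inr i) : ℂ)) / (2 * (N : ℂ) ^ 2))) *
        φ (fun i => n i + ((p (Sum.inl i) : ℤ) : ZMod (N ^ 2))) = _
      have h1 : (∑ j, (p (Sum.inr j) : ℂ) * ((n j).val : ℂ)) = 0 := by
        refine Finset.sum_eq_zero fun j _ => ?_
        simp [hp]
      have h2 : (∑ j, (p (Sum.inl j) : ℂ) * (p (Sum.inr j) : ℂ)) = 0 := by
        refine Finset.sum_eq_zero fun j _ => ?_
        simp [hp]
      have h3 : (fun j => n j + ((p (Sum.inl j) : ℤ) : ZMod (N ^ 2))) = n + m := by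
        funext j
        simp [hp]
      rw [h1, h2, h3]
      simp
    have hWs : Wop N p (Pi.single m (1 : ℂ)) = (Pi.single 0 (1 : ℂ) : Sch g N) := by
      funext n'
      rw [hW]
      by_cases hn : n' = 0
      · rw [hn, zero_add, Pi.single_eq_same, Pi.single_eq_same]
      · rw [Pi.single_eq_of_ne hn, Pi.single_eq_of_ne]
        intro h0
        exact hn (by simpa using h0)
    have hcomm := congrFun (congrArg (fun L : Sch g N →ₗ[ℂ] Sch g N => L (Pi.single m 1)) (h p)) 0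
    simp only [LinearMap.comp_apply] at hcomm
    rw [hWs, hW, zero_add] at hcomm
    exact hcomm.symm
  refine ⟨ρ (Pi.single 0 1) 0, ?_⟩
  refine LinearMap.pi_ext' fun m => ?_
  refine LinearMap.ext_ring ?_
  funext n
  simp only [LinearMap.comp_apply, LinearMap.smul_apply, LinearMap.id_apply, LinearMap.coe_single,
    Pi.smul_apply, smul_eq_mul]
  by_cases hn : n = m
  · subst hn
    rw [hshift, Pi.single_eq_same, mul_one]
  · rw [hdiag m n hn, Pi.single_eq_of_ne hn, mul_zero]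

end Pool.Agent.helper76.BQ
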